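import Mathlib

/-!
# The sum of the dimensions of a union of cube boundaries with all side lengths
-/

set_option autoImplicit false

namespace Pool.Agent.Results.MP_05d054_an.DimensionSum

open MeasureTheory Set Metric Filter Topology

/-- The least number of sets of diameter at most `δ` that cover `A`. -/
noncomputable def coverNum {X : Type*} [PseudoMetricSpace X] (A : Set X) (δ : ℝ) : ℕ :=
  sInf {N | ∃ V : Fin N → Set X, A ⊆ ⋃ j, V j ∧ ∀ j, ∀ x ∈ V j, ∀ y ∈ V j, dist x y ≤ δ}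

/-- The upper box-counting dimension: the upper limit of `log N_δ(A) / log (1 / δ)` as `δ → 0+`. -/
noncomputable def upperBoxDim {X : Type*} [PseudoMetricSpace X] (A : Set X) : ENNReal :=
  limsup (fun δ : ℝ => ENNReal.ofReal (Real.log (coverNum A δ) / Real.log (1 / δ))) (𝓝[>] 0)

/-- The union of the `(n - 1)`-dimensional faces of the unit cube `[0, 1]^n`. -/
def cubeBoundary (n : ℕ) : Set (EuclideanSpace ℝ (Fin n)) :=
  {x | (∀ i, x i ∈ Icc (0 : ℝ) 1) ∧ ∃ i, x i = 0 ∨ x i = 1}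

/-- The set `T(f)`: the union of the sets `t K + f t`, `0 < t < 1`. -/
def packing {n : ℕ} (f : ℝ → EuclideanSpace ℝ (Fin n)) : Set (EuclideanSpace ℝ (Fin n)) :=
  ⋃ t ∈ Ioo (0 : ℝ) 1, (fun x => t • x + f t) '' cubeBoundary n

variable {k : ℕ}

/-- The point with the first coordinate `a` and the other coordinates `y`. -/
noncomputable def mk (a : ℝ) (y : Fin k → ℝ) : EuclideanSpace ℝ (Fin (k + 1)) :=
  WithLp.toLp 2 (Fin.cons a y)

lemma abs_sub_le_dist {n : ℕ} (x y : EuclideanSpace ℝ (Fin n)) (i : Fin n) :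
    |x i - y i| ≤ dist x y := by
  have := PiLp.norm_apply_le (x - y) i
  rw [dist_eq_norm]
  simpa using this

open Classical in
/-- The averaging lemma. -/
lemma avg {ι : Type} [Countable ι] (V : ι → Set (EuclideanSpace ℝ (Fin (k + 1)))) (d : ι → ℝ)
    (hd : ∀ j, 0 ≤ d j) (hV : ∀ j, ∀ x ∈ V j, ∀ y ∈ V j, dist x y ≤ d j) (a : ι → ENNReal)
    (q : Fin k → ℝ) {ρ : ℝ} (hρ : 0 < ρ) :
    ∃ y ∈ closedBall q ρ, ∑' j, (if ∃ t : ℝ, mk t y ∈ V j then a j else 0) ≤
      (∑' j, a j * ENNReal.ofReal ((2 * d j) ^ k)) / volume (closedBall q ρ) := by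
  let W : ι → Set (Fin k → ℝ) := fun j =>
    if h : (V j).Nonempty then closedBall (fun i => h.some i.succ) (d j) else ∅
  have hWm : ∀ j, MeasurableSet (W j) := by
    intro j
    simp only [W]
    split_ifs
    · exact measurableSet_closedBall
    · exact MeasurableSet.empty
  have hWvol : ∀ j, volume (W j) ≤ ENNReal.ofReal ((2 * d j) ^ k) := by
    intro j
    simp only [W]
    split_ifs
    · rw [Real.volume_pi_closedBall _ (hd j), Fintype.card_fin]
    · simp
  have hhit : ∀ j y, (∃ t : ℝ, mk t y ∈ V j) → y ∈ W j := by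
    rintro j y ⟨t, ht⟩
    have hne : (V j).Nonempty := ⟨_, ht⟩
    simp only [W, dif_pos hne]
    rw [mem_closedBall, dist_pi_le_iff (hd j)]
    intro i
    have h1 := hV j _ ht _ hne.some_mem
    have h2 := abs_sub_le_dist (mk t y) hne.some i.succ
    rw [Real.dist_eq]
    refine le_trans ?_ (h2.trans h1)
    simp [mk]
  have hvol : volume (closedBall q ρ) = ENNReal.ofReal ((2 * ρ) ^ k) := by
    rw [Real.volume_pi_closedBall _ hρ.le, Fintype.card_fin]
  have hv0 : volume (closedBall q ρ) ≠ 0 := by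
    rw [hvol]
    simp only [ne_eq, ENNReal.ofReal_eq_zero, not_le]
    positivity
  have hvt : volume (closedBall q ρ) ≠ ⊤ := by rw [hvol]; exact ENNReal.ofReal_ne_top
  let F : (Fin k → ℝ) → ENNReal := fun y => ∑' j, (W j).indicator (fun _ => a j) y
  have hF : Measurable F := Measurable.tsum fun j => measurable_const.indicator (hWm j)
  obtain ⟨y, hy, hyF⟩ := exists_le_setLAverage hv0 hvt hF.aemeasurable
  refine ⟨y, hy, ?_⟩
  have h1 : ∑' j, (if ∃ t : ℝ, mk t y ∈ V j then a j else 0) ≤ F y := by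
    refine ENNReal.tsum_le_tsum fun j => ?_
    split_ifs with h
    · rw [indicator_of_mem (hhit j y h)]
    · exact zero_le
  refine h1.trans (hyF.trans ?_)
  rw [setLAverage_eq]
  refine ENNReal.div_le_div_right ?_ _
  calc ∫⁻ y in closedBall q ρ, F y ≤ ∫⁻ y, F y := setLIntegral_le_lintegral _ _
    _ = ∑' j, ∫⁻ y, (W j).indicator (fun _ => a j) y :=
        lintegral_tsum fun j => (measurable_const.indicator (hWm j)).aemeasurable
    _ = ∑' j, a j * volume (W j) := by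
        refine tsum_congr fun j => ?_
        rw [lintegral_indicator_const (hWm j)]
    _ ≤ _ := ENNReal.tsum_le_tsum fun j => by gcongr; exact hWvol j

/-- Good covers of a set of zero Hausdorff measure. -/
lemma cover_of_null {X : Type*} [MetricSpace X] [MeasurableSpace X] [BorelSpace X] (G : Set X) {s : ℝ}
    (hs : 0 < s) (hG : μH[s] G = 0) {r ε : ℝ} (hr : 0 < r) (hε : 0 < ε) :
    ∃ (t : ℕ → Set X) (d : ℕ → ℝ), G ⊆ ⋃ n, t n ∧ (∀ n, 0 < d n ∧ d n ≤ r) ∧
      (∀ n, ∀ x ∈ t n, ∀ y ∈ t n, dist x y ≤ d n) ∧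
      ∑' n, ENNReal.ofReal (d n ^ s) ≤ ENNReal.ofReal ε := by
  rw [Measure.hausdorffMeasure_apply] at hG
  have h1 : (⨅ (t : ℕ → Set X) (_ : G ⊆ ⋃ n, t n) (_ : ∀ n, ediam (t n) ≤ ENNReal.ofReal r),
      ∑' n, ⨆ _ : (t n).Nonempty, ediam (t n) ^ s) = 0 := by
    rw [← nonpos_iff_eq_zero, ← hG]
    exact le_iSup₂ (f := fun (r : ENNReal) (_ : 0 < r) =>
      ⨅ (t : ℕ → Set X) (_ : G ⊆ ⋃ n, t n) (_ : ∀ n, ediam (t n) ≤ r),
      ∑' n, ⨆ _ : (t n).Nonempty, ediam (t n) ^ s) (ENNReal.ofReal r) (by simpa using hr)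
  have h2 : (⨅ (t : ℕ → Set X) (_ : G ⊆ ⋃ n, t n) (_ : ∀ n, ediam (t n) ≤ ENNReal.ofReal r),
      ∑' n, ⨆ _ : (t n).Nonempty, ediam (t n) ^ s) < ENNReal.ofReal (ε / 2) := by
    rw [h1]; simpa using hε
  simp only [iInf_lt_iff] at h2
  obtain ⟨t, ht, htr, hsum⟩ := h2
  let η : ℕ → ℝ := fun n => min r ((ε / 2 * (1 / 2) ^ (n + 1)) ^ (1 / s))
  have hη : ∀ n, 0 < η n := fun n => lt_min hr (by positivity)
  have hηs : ∀ n, η n ^ s ≤ ε / 2 * (1 / 2) ^ (n + 1) := by
    intro n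
    calc η n ^ s ≤ ((ε / 2 * (1 / 2) ^ (n + 1)) ^ (1 / s)) ^ s :=
          Real.rpow_le_rpow (hη n).le (min_le_right _ _) hs.le
      _ = ε / 2 * (1 / 2) ^ (n + 1) := by
          have h1s : 1 / s * s = 1 := by field_simp
          rw [← Real.rpow_mul (by positivity), h1s, Real.rpow_one]
  have hfin : ∀ n, ediam (t n) ≠ ⊤ := fun n => ne_top_of_le_ne_top ENNReal.ofReal_ne_top (htr n)
  refine ⟨t, fun n => max (ediam (t n)).toReal (η n), ht, fun n => ⟨lt_max_of_lt_right (hη n),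
    max_le ?_ (min_le_left _ _)⟩, ?_, ?_⟩
  · exact ENNReal.toReal_le_of_le_ofReal hr.le (htr n)
  · intro n x hx y hy
    refine le_trans ?_ (le_max_left _ _)
    have := edist_le_ediam_of_mem hx hy
    rw [dist_edist]
    exact ENNReal.toReal_mono (hfin n) this
  · have h3 : ∀ n, ENNReal.ofReal ((max (ediam (t n)).toReal (η n)) ^ s) ≤
        (⨆ _ : (t n).Nonempty, ediam (t n) ^ s) + ENNReal.ofReal (ε / 2 * (1 / 2) ^ (n + 1)) := by
      intro n
      rcases le_total (ediam (t n)).toReal (η n) with h | h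
      · rw [max_eq_right h]
        exact (ENNReal.ofReal_le_ofReal (hηs n)).trans le_add_self
      · rw [max_eq_left h]
        refine le_trans ?_ le_self_add
        have hne : (t n).Nonempty := by
          by_contra hemp
          rw [not_nonempty_iff_eq_empty] at hemp
          rw [hemp, ediam_empty] at h
          have := hη n
          simp at h
          linarith
        rw [ciSup_pos hne, ← ENNReal.ofReal_rpow_of_nonneg ENNReal.toReal_nonneg hs.le,
          ENNReal.ofReal_toReal (hfin n)]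
    calc ∑' n, ENNReal.ofReal ((max (ediam (t n)).toReal (η n)) ^ s)
        ≤ ∑' n, ((⨆ _ : (t n).Nonempty, ediam (t n) ^ s) +
          ENNReal.ofReal (ε / 2 * (1 / 2) ^ (n + 1))) := ENNReal.tsum_le_tsum h3
      _ = ∑' n, (⨆ _ : (t n).Nonempty, ediam (t n) ^ s) +
          ∑' n, ENNReal.ofReal (ε / 2 * (1 / 2) ^ (n + 1)) := ENNReal.tsum_add
      _ ≤ ENNReal.ofReal (ε / 2) + ENNReal.ofReal (ε / 2) := by
          refine add_le_add hsum.le ?_
          have hs1 : HasSum (fun n : ℕ => ε / 2 * (1 / 2 : ℝ) ^ (n + 1)) (ε / 2) := by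
            have h4 := hasSum_geometric_two.mul_left (ε / 4)
            have e1 : (fun n : ℕ => ε / 2 * (1 / 2 : ℝ) ^ (n + 1)) =
                fun n => ε / 4 * (1 / 2) ^ n := by
              funext n; rw [pow_succ]; ring
            have e2 : ε / 4 * 2 = ε / 2 := by ring
            rw [e1, ← e2]
            exact h4
          rw [← ENNReal.ofReal_tsum_of_nonneg (fun n => by positivity) hs1.summable, hs1.tsum_eq]
      _ = ENNReal.ofReal ε := by
          rw [← ENNReal.ofReal_add (by positivity) (by positivity)]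
          congr 1; ring


open Classical in
/-- From a cover of a set which contains `E × Q` we get a smaller cover of `E`. -/
lemma cover_line (G : Set (EuclideanSpace ℝ (Fin (k + 1)))) (E : Set ℝ) (q : Fin k → ℝ) {ρ : ℝ}
    (hρ : 0 < ρ) (hEG : ∀ a ∈ E, ∀ y ∈ closedBall q ρ, mk a y ∈ G) {δ : ℝ} (hδ : 0 < δ) {N : ℕ}
    (V : Fin N → Set (EuclideanSpace ℝ (Fin (k + 1)))) (hGV : G ⊆ ⋃ j, V j)
    (hV : ∀ j, ∀ x ∈ V j, ∀ y ∈ V j, dist x y ≤ δ) :
    ∃ (m : ℕ) (U : Fin m → Set ℝ), E ⊆ ⋃ l, U l ∧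
      (∀ l, ∀ x ∈ U l, ∀ y ∈ U l, |x - y| ≤ δ) ∧ (m : ℝ) ≤ N * (δ / ρ) ^ k := by
  obtain ⟨y, hy, hle⟩ := avg V (fun _ => δ) (fun _ => hδ.le) hV (fun _ => 1) q hρ
  let J : Finset (Fin N) := Finset.univ.filter fun j => ∃ t : ℝ, mk t y ∈ V j
  refine ⟨J.card, fun l => {t | mk t y ∈ V (J.equivFin.symm l)}, ?_, ?_, ?_⟩
  · intro a ha
    obtain ⟨j, hj⟩ := mem_iUnion.1 (hGV (hEG a ha y hy))
    have hjJ : j ∈ J := by
      simp only [J, Finset.mem_filter, Finset.mem_univ, true_and]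
      exact ⟨a, hj⟩
    rw [mem_iUnion]
    refine ⟨J.equivFin ⟨j, hjJ⟩, ?_⟩
    simp only [mem_ofPred_eq, Equiv.symm_apply_apply]
    exact hj
  · intro l x hx x' hx'
    have h1 := abs_sub_le_dist (mk x y) (mk x' y) 0
    have h2 := hV _ _ hx _ hx'
    refine le_trans ?_ (h1.trans h2)
    simp [mk]
  · have hcard : ∑' j : Fin N, (if ∃ t : ℝ, mk t y ∈ V j then (1 : ENNReal) else 0) = J.card := by
      rw [tsum_fintype, ← Finset.sum_filter]
      simp [J]
    rw [hcard, Real.volume_pi_closedBall _ hρ.le, Fintype.card_fin, tsum_fintype] at hle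
    simp only [one_mul, Finset.sum_const, Finset.card_univ, Fintype.card_fin, nsmul_eq_mul] at hle
    rw [← ENNReal.ofReal_natCast N, ← ENNReal.ofReal_mul (by positivity),
      ← ENNReal.ofReal_div_of_pos (by positivity), ← ENNReal.ofReal_natCast,
      ENNReal.ofReal_le_ofReal_iff (by positivity)] at hle
    refine hle.trans (le_of_eq ?_)
    rw [mul_pow, mul_pow, div_pow]
    field_simp

open Classical in
/-- The difference set is null. -/
lemma diff_null (G : Set (EuclideanSpace ℝ (Fin (k + 1)))) (E : Set ℝ) (q : Fin k → ℝ) {ρ : ℝ}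
    (hρ : 0 < ρ) (hEG : ∀ a ∈ E, ∀ y ∈ closedBall q ρ, mk a y ∈ G) {s β : ℝ} (hs : 0 < s)
    (hG : μH[s] G = 0) (hβ : ∃ δ₀ > 0, ∀ δ : ℝ, 0 < δ → δ < δ₀ → ∃ N : ℕ,
      (∃ V : Fin N → Set (EuclideanSpace ℝ (Fin (k + 1))), G ⊆ ⋃ j, V j ∧
        ∀ j, ∀ x ∈ V j, ∀ y ∈ V j, dist x y ≤ δ) ∧ (N : ℝ) ≤ δ ^ (-β))
    (hsum : s + β < 2 * k + 1) : volume {x : ℝ | ∃ a ∈ E, ∃ b ∈ E, a - b = x} = 0 := by
  obtain ⟨δ₀, hδ₀, hβ⟩ := hβ
  have hbound : ∀ ε : ℝ, 0 < ε → volume {x : ℝ | ∃ a ∈ E, ∃ b ∈ E, a - b = x} ≤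
      ENNReal.ofReal ε := by
    intro ε hε
    set C : ℝ := 2 * (ρ ^ k)⁻¹ * (ρ ^ k)⁻¹ with hC
    have hCpos : 0 < C := by positivity
    obtain ⟨t, d, hGt, hd, htd, hsumd⟩ := cover_of_null G hs hG
      (r := min (δ₀ / 2) 1) (ε := ε / C) (by positivity) (by positivity)
    have hdδ : ∀ n, d n < δ₀ := fun n =>
      lt_of_le_of_lt ((hd n).2.trans (min_le_left _ _)) (by linarith)
    have hd1 : ∀ n, d n ≤ 1 := fun n => (hd n).2.trans (min_le_right _ _)
    -- the covers of `E` at the scales `d n`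
    have hU : ∀ n, ∃ (m : ℕ) (U : Fin m → Set ℝ), E ⊆ ⋃ l, U l ∧
        (∀ l, ∀ x ∈ U l, ∀ y ∈ U l, |x - y| ≤ d n) ∧ (m : ℝ) ≤ d n ^ (-β) * (d n / ρ) ^ k := by
      intro n
      obtain ⟨N, ⟨V, hGV, hV⟩, hN⟩ := hβ (d n) (hd n).1 (hdδ n)
      obtain ⟨m, U, h1, h2, h3⟩ := cover_line G E q hρ hEG (hd n).1 V hGV hV
      refine ⟨m, U, h1, h2, h3.trans ?_⟩
      have := (hd n).1
      gcongr
    choose m U hEU hUd hm using hU
    obtain ⟨y, hy, hle⟩ := avg t d (fun n => (hd n).1.le) htd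
      (fun n => ENNReal.ofReal (d n ^ (s - k))) q hρ
    have hcover : {x : ℝ | ∃ a ∈ E, ∃ b ∈ E, a - b = x} ⊆
        ⋃ n, ⋃ l : Fin (m n), {x : ℝ | ∃ a, mk a y ∈ t n ∧ ∃ b ∈ U n l, a - b = x} := by
      rintro x ⟨a, ha, b, hb, rfl⟩
      obtain ⟨n, hn⟩ := mem_iUnion.1 (hGt (hEG a ha y hy))
      obtain ⟨l, hl⟩ := mem_iUnion.1 (hEU n hb)
      exact mem_iUnion.2 ⟨n, mem_iUnion.2 ⟨l, a, hn, b, hl, rfl⟩⟩
    have hpiece : ∀ n, volume (⋃ l : Fin (m n),
        {x : ℝ | ∃ a, mk a y ∈ t n ∧ ∃ b ∈ U n l, a - b = x}) ≤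
        ENNReal.ofReal (2 * (ρ ^ k)⁻¹) *
          (if ∃ a : ℝ, mk a y ∈ t n then ENNReal.ofReal (d n ^ (s - k)) else 0) := by
      intro n
      have hdn := (hd n).1
      split_ifs with h
      · have h1 : ∀ l : Fin (m n), volume {x : ℝ | ∃ a, mk a y ∈ t n ∧ ∃ b ∈ U n l, a - b = x} ≤
            ENNReal.ofReal (2 * d n) := by
          intro l
          refine (Real.volume_le_diam _).trans (ediam_le ?_)
          rintro _ ⟨a, ha, b, hb, rfl⟩ _ ⟨a', ha', b', hb', rfl⟩
          rw [edist_dist]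
          apply ENNReal.ofReal_le_ofReal
          rw [Real.dist_eq]
          have h2 : |a - a'| ≤ d n := by
            have h3 := abs_sub_le_dist (mk a y) (mk a' y) 0
            refine le_trans ?_ (h3.trans (htd n _ ha _ ha'))
            simp [mk]
          have h4 := hUd n l b hb b' hb'
          rw [show a - b - (a' - b') = (a - a') - (b - b') by ring]
          refine (abs_sub _ _).trans ?_
          linarith
        refine (measure_iUnion_le _).trans ?_
        refine (ENNReal.tsum_le_tsum h1).trans ?_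
        rw [tsum_fintype, Finset.sum_const, Finset.card_univ, Fintype.card_fin, nsmul_eq_mul,
          ← ENNReal.ofReal_natCast, ← ENNReal.ofReal_mul (by positivity),
          ← ENNReal.ofReal_mul (by positivity)]
        apply ENNReal.ofReal_le_ofReal
        have h5 : (m n : ℝ) * (2 * d n) ≤ d n ^ (-β) * (d n / ρ) ^ k * (2 * d n) := by
          gcongr; exact hm n
        refine h5.trans ?_
        have h6 : d n ^ (-β) * (d n / ρ) ^ k * (2 * d n) =
            2 * (ρ ^ k)⁻¹ * d n ^ (-β + k + 1) := by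
          rw [Real.rpow_add hdn, Real.rpow_add hdn, Real.rpow_natCast, Real.rpow_one, div_pow]
          field_simp
        rw [h6]
        have h7 : d n ^ (-β + k + 1) ≤ d n ^ (s - k) :=
          Real.rpow_le_rpow_of_exponent_ge hdn (hd1 n) (by linarith)
        gcongr
      · have : (⋃ l : Fin (m n), {x : ℝ | ∃ a, mk a y ∈ t n ∧ ∃ b ∈ U n l, a - b = x}) = ∅ := by
          rw [iUnion_eq_empty]
          intro l
          rw [eq_empty_iff_forall_notMem]
          rintro x ⟨a, ha, -⟩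
          exact h ⟨a, ha⟩
        rw [this]
        simp
    calc volume {x : ℝ | ∃ a ∈ E, ∃ b ∈ E, a - b = x}
        ≤ ∑' n, volume (⋃ l : Fin (m n),
          {x : ℝ | ∃ a, mk a y ∈ t n ∧ ∃ b ∈ U n l, a - b = x}) :=
          (measure_mono hcover).trans (measure_iUnion_le _)
      _ ≤ ∑' n, ENNReal.ofReal (2 * (ρ ^ k)⁻¹) *
          (if ∃ a : ℝ, mk a y ∈ t n then ENNReal.ofReal (d n ^ (s - k)) else 0) :=
          ENNReal.tsum_le_tsum hpiece
      _ = ENNReal.ofReal (2 * (ρ ^ k)⁻¹) *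
          ∑' n, (if ∃ a : ℝ, mk a y ∈ t n then ENNReal.ofReal (d n ^ (s - k)) else 0) :=
          ENNReal.tsum_mul_left
      _ ≤ ENNReal.ofReal (2 * (ρ ^ k)⁻¹) * ((∑' n, ENNReal.ofReal (d n ^ (s - k)) *
          ENNReal.ofReal ((2 * d n) ^ k)) / volume (closedBall q ρ)) := by
          gcongr
      _ = ENNReal.ofReal (2 * (ρ ^ k)⁻¹) * ((ENNReal.ofReal (2 ^ k) *
          ∑' n, ENNReal.ofReal (d n ^ s)) / ENNReal.ofReal ((2 * ρ) ^ k)) := by
          rw [Real.volume_pi_closedBall _ hρ.le, Fintype.card_fin, ← ENNReal.tsum_mul_left]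
          congr 2
          refine tsum_congr fun n => ?_
          have hdn := (hd n).1
          rw [← ENNReal.ofReal_mul (by positivity), ← ENNReal.ofReal_mul (by positivity)]
          congr 1
          rw [mul_pow, ← Real.rpow_natCast (d n) k, mul_left_comm, ← Real.rpow_add hdn,
            sub_add_cancel]
      _ ≤ ENNReal.ofReal (2 * (ρ ^ k)⁻¹) * ((ENNReal.ofReal (2 ^ k) *
          ENNReal.ofReal (ε / C)) / ENNReal.ofReal ((2 * ρ) ^ k)) := by
          gcongr
      _ = ENNReal.ofReal ε := by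
          rw [← ENNReal.ofReal_mul (by positivity), ← ENNReal.ofReal_div_of_pos (by positivity),
            ← ENNReal.ofReal_mul (by positivity)]
          congr 1
          rw [hC, mul_pow]
          field_simp
  rw [← nonpos_iff_eq_zero]
  refine ENNReal.le_of_forall_pos_le_add fun ε hε _ => ?_
  rw [zero_add]
  have := hbound ε (by exact_mod_cast hε)
  rwa [ENNReal.ofReal_coe_nnreal] at this


/-- The cube with side `t` contains the points of its two faces orthogonal to the first axis. -/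
lemma mem_packing (f : ℝ → EuclideanSpace ℝ (Fin (k + 1))) {t : ℝ} (ht : t ∈ Ioo (0 : ℝ) 1)
    (a : ℝ) (ha : a = f t 0 ∨ a = f t 0 + t) (y : Fin k → ℝ)
    (hy : ∀ i : Fin k, f t i.succ ≤ y i ∧ y i ≤ f t i.succ + t) : mk a y ∈ packing f := by
  simp only [packing, mem_iUnion, exists_prop]
  have ht0 : t ≠ 0 := ht.1.ne'
  refine ⟨t, ht, t⁻¹ • (mk a y - f t), ?_, ?_⟩
  · have h0 : (t⁻¹ • (mk a y - f t)) 0 = t⁻¹ * (a - f t 0) := by simp [mk]
    have hsucc : ∀ i : Fin k, (t⁻¹ • (mk a y - f t)) i.succ = t⁻¹ * (y i - f t i.succ) := by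
      intro i; simp [mk]
    have h01 : t⁻¹ * (a - f t 0) = 0 ∨ t⁻¹ * (a - f t 0) = 1 := by
      rcases ha with ha | ha
      · left; rw [ha]; simp
      · right; rw [ha]; field_simp; ring
    refine ⟨?_, 0, by rw [h0]; exact h01⟩
    intro i
    refine Fin.cases ?_ (fun i => ?_) i
    · rw [h0]
      rcases h01 with h | h <;> rw [h] <;> simp
    · rw [hsucc]
      have h1 := hy i
      have h2 : t⁻¹ * (y i - f t i.succ) = (y i - f t i.succ) / t := by
        rw [div_eq_mul_inv, mul_comm]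
      rw [h2]
      constructor
      · exact div_nonneg (by linarith) ht.1.le
      · rw [div_le_one ht.1]; linarith
  · simp only
    rw [smul_smul, mul_inv_cancel₀ ht0, one_smul, sub_add_cancel]

lemma bounded_packing {n : ℕ} (f : ℝ → EuclideanSpace ℝ (Fin n))
    (hf : ∀ t ∈ Ioo (0 : ℝ) 1, ∀ i, f t i ∈ Icc (0 : ℝ) 1) : TotallyBounded (packing f) := by
  have h1 : IsCompact {x : EuclideanSpace ℝ (Fin n) | ∀ i, x i ∈ Icc (0 : ℝ) 2} := by
    have h2 : IsCompact (Set.pi univ fun _ : Fin n => Icc (0 : ℝ) 2) :=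
      isCompact_univ_pi fun _ => isCompact_Icc
    have h3 := h2.image (PiLp.continuous_toLp 2 (fun _ : Fin n => ℝ))
    convert h3 using 1
    ext x
    simp only [mem_ofPred_eq, mem_image, Set.mem_pi, mem_univ, true_imp_iff]
    constructor
    · intro h
      exact ⟨fun i => x i, h, rfl⟩
    · rintro ⟨y, hy, rfl⟩ i
      exact hy i
  refine h1.totallyBounded.subset ?_
  intro z hz
  simp only [packing, mem_iUnion, exists_prop] at hz
  obtain ⟨t, ht, x, ⟨hx, -⟩, rfl⟩ := hz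
  intro i
  have h4 := hf t ht i
  have h5 := hx i
  simp only [PiLp.add_apply, PiLp.smul_apply, smul_eq_mul, mem_Icc] at *
  constructor
  · have := mul_nonneg ht.1.le h5.1
    linarith
  · have : t * x i ≤ 1 * 1 := mul_le_mul ht.2.le h5.2 h5.1 zero_le_one
    linarith

lemma exists_cover {X : Type*} [PseudoMetricSpace X] (A : Set X) (hA : TotallyBounded A) {δ : ℝ}
    (hδ : 0 < δ) : ∃ N : ℕ, ∃ V : Fin N → Set X, A ⊆ ⋃ j, V j ∧
      ∀ j, ∀ x ∈ V j, ∀ y ∈ V j, dist x y ≤ δ := by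
  obtain ⟨t, htf, ht⟩ := Metric.totallyBounded_iff.1 hA (δ / 2) (by positivity)
  obtain ⟨N, ⟨e⟩⟩ : ∃ N, Nonempty (t ≃ Fin N) := by
    have := htf.to_subtype
    exact Finite.exists_equiv_fin t
  refine ⟨N, fun j => ball (e.symm j : X) (δ / 2), ?_, ?_⟩
  · intro x hx
    obtain ⟨y, hy, hxy⟩ := mem_iUnion₂.1 (ht hx)
    rw [mem_iUnion]
    exact ⟨e ⟨y, hy⟩, by simpa using hxy⟩
  · intro j x hx y hy
    have h1 := mem_ball.1 hx
    have h2 := mem_ball.1 hy
    have := dist_triangle_right x y (e.symm j : X)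
    linarith

/-- **The sum of the Hausdorff and the upper box dimension of a union of cube boundaries with all
side lengths is at least `2 n - 1`.** -/
theorem result (n : ℕ) (hn : 1 ≤ n) (f : ℝ → EuclideanSpace ℝ (Fin n))
    (hf : ∀ t ∈ Ioo (0 : ℝ) 1, ∀ i, f t i ∈ Icc (0 : ℝ) 1) :
    ((2 * n - 1 : ℕ) : ENNReal) ≤ dimH (packing f) + upperBoxDim (packing f) := by
  obtain ⟨k, rfl⟩ : ∃ k, n = k + 1 := ⟨n - 1, by omega⟩
  by_contra hlt
  push Not at hlt
  have htop : dimH (packing f) + upperBoxDim (packing f) ≠ ⊤ := hlt.ne_top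
  rw [ENNReal.add_ne_top] at htop
  set a := (dimH (packing f)).toReal with ha
  set b := (upperBoxDim (packing f)).toReal with hb
  have ha' : dimH (packing f) = ENNReal.ofReal a := (ENNReal.ofReal_toReal htop.1).symm
  have hb' : upperBoxDim (packing f) = ENNReal.ofReal b := (ENNReal.ofReal_toReal htop.2).symm
  have ha0 : 0 ≤ a := ENNReal.toReal_nonneg
  have hb0 : 0 ≤ b := ENNReal.toReal_nonneg
  have hab : a + b < 2 * k + 1 := by
    rw [ha', hb', ← ENNReal.ofReal_add ha0 hb0, ← ENNReal.ofReal_natCast,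
      ENNReal.ofReal_lt_ofReal_iff_of_nonneg (by positivity)] at hlt
    have : ((2 * (k + 1) - 1 : ℕ) : ℝ) = 2 * k + 1 := by
      rw [show 2 * (k + 1) - 1 = 2 * k + 1 by omega]; push_cast; ring
    rwa [this] at hlt
  set η := (2 * k + 1 - a - b) / 3 with hη
  have hηpos : 0 < η := by rw [hη]; linarith
  have hs0 : 0 < a + η := by linarith
  have hG0 : μH[a + η] (packing f) = 0 := by
    obtain ⟨σ, hσ⟩ : ∃ σ : NNReal, (σ : ℝ) = a + η := ⟨⟨a + η, hs0.le⟩, rfl⟩
    have h1 : dimH (packing f) < (σ : ENNReal) := by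
      rw [ha', ← ENNReal.ofReal_coe_nnreal, ENNReal.ofReal_lt_ofReal_iff_of_nonneg ha0, hσ]
      linarith
    have h2 := hausdorffMeasure_of_dimH_lt h1
    rwa [hσ] at h2
  -- the covers of `G`
  have hcov : ∃ δ₀ > 0, ∀ δ : ℝ, 0 < δ → δ < δ₀ → ∃ N : ℕ,
      (∃ V : Fin N → Set (EuclideanSpace ℝ (Fin (k + 1))), packing f ⊆ ⋃ j, V j ∧
        ∀ j, ∀ x ∈ V j, ∀ y ∈ V j, dist x y ≤ δ) ∧ (N : ℝ) ≤ δ ^ (-(b + η)) := by
    have h1 : upperBoxDim (packing f) < ENNReal.ofReal (b + η) := by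
      rw [hb', ENNReal.ofReal_lt_ofReal_iff_of_nonneg hb0]
      linarith
    have h2 := eventually_lt_of_limsup_lt h1
    rw [eventually_nhdsWithin_iff, Metric.eventually_nhds_iff] at h2
    obtain ⟨ε, hε, h2⟩ := h2
    refine ⟨min ε 1, lt_min hε one_pos, fun δ hδ hδ' => ?_⟩
    have hδ1 : δ < 1 := hδ'.trans_le (min_le_right _ _)
    have hδε : δ < ε := hδ'.trans_le (min_le_left _ _)
    have h3 := h2 (y := δ) (by rw [Real.dist_eq, sub_zero, abs_of_pos hδ]; exact hδε) hδ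
    rw [ENNReal.ofReal_lt_ofReal_iff (by linarith)] at h3
    have hlog : 0 < Real.log (1 / δ) := Real.log_pos (by rw [lt_div_iff₀ hδ]; linarith)
    rw [div_lt_iff₀ hlog] at h3
    refine ⟨coverNum (packing f) δ, Nat.sInf_mem (exists_cover _ (bounded_packing f hf) hδ), ?_⟩
    rcases Nat.eq_zero_or_pos (coverNum (packing f) δ) with h0 | hpos
    · rw [h0]
      simp only [Nat.cast_zero]
      positivity
    · have hposR : (0 : ℝ) < coverNum (packing f) δ := by exact_mod_cast hpos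
      rw [← Real.log_le_log_iff hposR (by positivity), Real.log_rpow hδ]
      rw [one_div, Real.log_inv] at h3
      linarith
  -- the sets of the side lengths
  let T : (Fin k → ℚ) × ℕ → Set ℝ := fun p => {t | t ∈ Ioo (0 : ℝ) 1 ∧
    ∀ y ∈ closedBall (fun i => (p.1 i : ℝ)) (1 / ((p.2 : ℝ) + 1)), ∀ i : Fin k,
      f t i.succ ≤ y i ∧ y i ≤ f t i.succ + t}
  have hT0 : ∀ p, volume (T p) = 0 := by
    intro p
    have h1 := diff_null (packing f) {a | ∃ t ∈ T p, a = f t 0 ∨ a = f t 0 + t}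
      (fun i => (p.1 i : ℝ)) (ρ := 1 / ((p.2 : ℝ) + 1)) (by positivity) (by
        rintro a ⟨t, ht, hat⟩ y hy
        exact mem_packing f ht.1 a hat y (ht.2 y hy)) hs0 hG0 hcov (by rw [hη]; linarith)
    refine measure_mono_null ?_ h1
    intro t ht
    exact ⟨f t 0 + t, ⟨t, ht, Or.inr rfl⟩, f t 0, ⟨t, ht, Or.inl rfl⟩, by ring⟩
  have hcoverT : Ioo (0 : ℝ) 1 ⊆ ⋃ p, T p := by
    intro t ht
    have hq : ∀ i : Fin k, ∃ q : ℚ, |(q : ℝ) - (f t i.succ + t / 2)| < t / 4 := by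
      intro i
      obtain ⟨q, hq1, hq2⟩ := exists_rat_btwn (show f t i.succ + t / 2 - t / 4 <
        f t i.succ + t / 2 + t / 4 by have := ht.1; linarith)
      exact ⟨q, by rw [abs_lt]; constructor <;> linarith⟩
    choose q hq using hq
    obtain ⟨j, hj⟩ := exists_nat_one_div_lt (show 0 < t / 4 by have := ht.1; linarith)
    rw [mem_iUnion]
    refine ⟨(q, j), ht, fun y hy i => ?_⟩
    rw [mem_closedBall] at hy
    have h1 := (dist_le_pi_dist y (fun i => (q i : ℝ)) i).trans hy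
    rw [Real.dist_eq] at h1
    have h2 := abs_le.1 h1
    have h3 := abs_lt.1 (hq i)
    constructor <;> linarith
  have hzero : volume (Ioo (0 : ℝ) 1) = 0 :=
    measure_mono_null hcoverT (measure_iUnion_null hT0)
  rw [Real.volume_Ioo] at hzero
  norm_num at hzero

end Pool.Agent.Results.MP_05d054_an.DimensionSum
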